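import Pool.Agent.W172.MK.Stm

set_option autoImplicit false

namespace Pool.Agent.W692.MK.Pot

open Pool.Agent.W172.MK

theorem hat_sub {n : ℕ} (f g : V n → ℝ) (a : V n) :
    hat (fun b => f b - g b) a = hat f a - hat g a := by
  unfold hat
  rw [← sub_div, ← Finset.sum_sub_distrib]
  congr 1
  exact Finset.sum_congr rfl fun b _ => by ring

theorem hat_zero {n : ℕ} (a : V n) : hat (fun _ => (0 : ℝ)) a = 0 := by
  simp [hat]

theorem abs_hat_le {n : ℕ} (f : V n → ℝ) (a : V n) : |hat f a| ≤ L1 f := by
  unfold L1
  exact Finset.single_le_sum (f := fun a => |hat f a|) (fun _ _ => abs_nonneg _)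
    (Finset.mem_univ a)

theorem L1_nonneg {n : ℕ} (f : V n → ℝ) : 0 ≤ L1 f :=
  Finset.sum_nonneg fun _ _ => abs_nonneg _

theorem pot : P_LVD → P_LVA → P_POT := by
  intro hLVD hLVA n M eps hG y z t a
  set D := DD eps y z t with hD
  have hD' : DD eps y z (t + 1) = Lam (fun b => eps (y t) b * eps (z t) b) D := rfl
  have hcE : cE eps y z t a = - (hat D a - hat (fun b => D b * (eps (y t) b * eps (z t) b)) a) := by
    unfold cE
    rw [← hat_sub]
    congr 1
    congr 1
    funext b
    rw [← hD]; ring
  have hcO : cO eps y z t a = - (hat (fun b => D b * eps (y t) b) a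
      - hat (fun b => D b * eps (z t) b) a) := by
    unfold cO
    rw [← hat_sub]
    congr 1
    congr 1
    funext b
    rw [← hD]; ring
  rw [hD']
  by_cases hyz : y t = z t
  · have hu : (fun b => eps (y t) b * eps (z t) b) = fun _ : V n => (1 : ℝ) := by
      funext b
      rw [hyz]
      rcases hG.sq (z t) b with h | h <;> rw [h] <;> norm_num
    obtain ⟨h1, h2⟩ := hLVA n hG.big D
    rw [hu]
    have e1 : cE eps y z t a = 0 := by
      rw [hcE]
      have : (fun b => D b * (eps (y t) b * eps (z t) b)) = D := by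
        funext b
        have h' : eps (y t) b * eps (z t) b = 1 := congrFun hu b
        rw [h', mul_one]
      rw [this, sub_self, neg_zero]
    have e2 : cO eps y z t a = 0 := by
      rw [hcO, hyz, sub_self, neg_zero]
    rw [e1, e2, abs_zero]
    refine ⟨by linarith, by linarith, fun ha => ?_⟩
    have := h2 a ha
    linarith
  · obtain ⟨h1, h2, h3⟩ := hLVD n hG.big D (fun b => eps (y t) b * eps (z t) b)
      (by
        intro b
        rcases hG.sq (y t) b with h | h <;> rcases hG.sq (z t) b with h' | h' <;>
          simp [h, h'])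
      (hG.cor _ _ hyz)
    have hy := (hLVD n hG.big D (eps (y t)) (hG.sq _) (hG.har _)).1 a
    have hz := (hLVD n hG.big D (eps (z t)) (hG.sq _) (hG.har _)).1 a
    have hw := L1_nonneg D
    have hDa := abs_hat_le D a
    have hua := h1 a
    have hE : |cE eps y z t a| ≤ |hat D a| + 1 / 8 * L1 D := by
      rw [hcE, abs_neg]
      exact (abs_sub _ _).trans (add_le_add le_rfl hua)
    have hO : |cO eps y z t a| ≤ 1 / 4 * L1 D := by
      rw [hcO, abs_neg]
      refine (abs_sub _ _).trans ?_
      linarith
    refine ⟨by linarith, by linarith, fun ha => ?_⟩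
    have := h3 a ha
    linarith

end Pool.Agent.W692.MK.Pot
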